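import Pool.Agent.H412R3.Deg.Main

set_option autoImplicit false

/-!
# The relation `deg f = deg g` is definable in `F[X]`

`F` is any field of characteristic zero, for instance `ℂ`; the only parameter is `X`.

Outline. The constants (zero and the units) are definable, the powers of `X` are the `x` with
`x ≡ 1 mod (X - 1)` such that all divisors of `x` are units or divisible by `X`, and the natural
numbers are the constants `c` such that `X ^ n - 1 = (X - 1) y`, `y ≡ c mod (X - 1)` for some power
of `X`. The evaluation `f ↦ f (n)` at a natural number is definable as well, so that (by Lagrange
interpolation) each polynomial `s` is a code of the finite sequences `s (0), …, s (n)` of constants.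
Then `deg f ≤ n` holds if and only if there is a sequence `a (0), …, a (n)` of
coefficients such that for each natural number `m` the Horner scheme
`s (0) = a (0)`, `s (j + 1) = m s (j) + a (j + 1)` ends with `s (n) = f (m)`.
-/

namespace Pool.Agent.Results.MP_d395f7_lc.EqualDegreeDefinable

open FirstOrder FirstOrder.Ring Polynomial

/-- Let `F` be a field of characteristic zero. The binary relation `deg f = deg g` on `F[X]` (where
`deg 0 = -∞`) is definable in the ring `F[X]` by a first-order formula of the language of rings with
the single parameter `X`. (Mathlib's notions of the language of rings, of the
structure on a ring, and of a definable relation.) -/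
theorem result (F : Type*) [Field F] [CharZero F] [CompatibleRing F[X]] :
    ({X} : Set F[X]).Definable₂ Language.ring {p : F[X] × F[X] | p.1.degree = p.2.degree} :=
  Pool.Agent.H412R3.Deg.main

end Pool.Agent.Results.MP_d395f7_lc.EqualDegreeDefinable
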